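import Pool.Agent.Q104.QP.Word

set_option autoImplicit false

/-!
# Horocyclic data

A group with a height function to the integers and a norm which is multiplied by `lam ^ height`
gives a generating set with hyperbolic Cayley graph and quasi-parabolic action.
-/

open Pointwise

namespace Pool.Agent.Q104.HS

open Pool.Agent.Q104.QP

/-- Horocyclic data. -/
structure Horo (G : Type*) [Group G] where
  /-- the base -/
  lam : ℝ
  one_lt : 1 < lam
  /-- the height -/
  s : G → ℤ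
  s_mul : ∀ g h, s (g * h) = s g + s h
  /-- the norm -/
  ν : G → ℝ
  ν_nonneg : ∀ g, 0 ≤ ν g
  ν_one : ν 1 = 0
  ν_mul : ∀ g h, ν (g * h) ≤ ν g + lam ^ (s g) * ν h
  ν_inv : ∀ g, ν g⁻¹ ≤ lam ^ (- s g) * ν g
  /-- the translation -/
  t : G
  s_t : s t = 1
  ν_t : ν t = 0

variable {G : Type*} [Group G] (H : Horo G)

namespace Horo

theorem lam_pos : 0 < H.lam := lt_trans one_pos H.one_lt

theorem s_one : H.s 1 = 0 := by
  have := H.s_mul 1 1
  rw [mul_one] at this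
  omega

theorem s_inv (g : G) : H.s g⁻¹ = - H.s g := by
  have := H.s_mul g g⁻¹
  rw [mul_inv_cancel, H.s_one] at this
  omega

theorem s_pow (g : G) (n : ℕ) : H.s (g ^ n) = n * H.s g := by
  induction n with
  | zero => simp [H.s_one]
  | succ n ih => rw [pow_succ, H.s_mul, ih]; push_cast; ring

theorem s_zpow (g : G) (n : ℤ) : H.s (g ^ n) = n * H.s g := by
  induction n using Int.induction_on with
  | zero => simp [H.s_one]
  | succ n ih => rw [zpow_add_one, H.s_mul, ih]; ring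
  | pred n ih => rw [zpow_sub_one, H.s_mul, ih, H.s_inv]; ring

theorem ν_inv_eq (g : G) : H.ν g⁻¹ = H.lam ^ (- H.s g) * H.ν g := by
  apply le_antisymm (H.ν_inv g)
  have h1 := H.ν_inv g⁻¹
  rw [inv_inv, H.s_inv, neg_neg] at h1
  have h2 : H.lam ^ (- H.s g) * H.lam ^ (H.s g) = 1 := by
    rw [← zpow_add₀ H.lam_pos.ne', neg_add_cancel, zpow_zero]
  calc H.lam ^ (- H.s g) * H.ν g ≤ H.lam ^ (- H.s g) * (H.lam ^ (H.s g) * H.ν g⁻¹) :=
        mul_le_mul_of_nonneg_left h1 (zpow_pos H.lam_pos _).le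
    _ = H.ν g⁻¹ := by rw [← mul_assoc, h2, one_mul]

theorem ν_t_pow (n : ℕ) : H.ν (H.t ^ n) = 0 := by
  induction n with
  | zero => simp [H.ν_one]
  | succ n ih =>
    apply le_antisymm _ (H.ν_nonneg _)
    rw [pow_succ]
    refine (H.ν_mul _ _).trans ?_
    rw [ih, H.ν_t]; simp

theorem ν_t_zpow (n : ℤ) : H.ν (H.t ^ n) = 0 := by
  rcases n with n | n
  · rw [Int.ofNat_eq_natCast, zpow_natCast]; exact H.ν_t_pow n
  · rw [zpow_negSucc, H.ν_inv_eq, H.ν_t_pow, mul_zero]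

theorem s_t_zpow (n : ℤ) : H.s (H.t ^ n) = n := by rw [H.s_zpow, H.s_t, mul_one]

/-- The height of the highest point of the way from `1` to `g`. -/
noncomputable def M (g : G) : ℝ := max (max 0 (H.s g)) (Real.logb H.lam (H.ν g))

theorem M_le_iff (g : G) (r : ℝ) : H.M g ≤ r ↔ 0 ≤ r ∧ (H.s g : ℝ) ≤ r ∧ H.ν g ≤ H.lam ^ r := by
  unfold M
  rw [max_le_iff, max_le_iff]
  constructor
  · rintro ⟨⟨h1, h2⟩, h3⟩
    refine ⟨h1, h2, ?_⟩
    rcases (H.ν_nonneg g).eq_or_lt with h | h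
    · rw [← h]; exact (Real.rpow_pos_of_pos H.lam_pos _).le
    · exact (Real.logb_le_iff_le_rpow H.one_lt h).1 h3
  · rintro ⟨h1, h2, h3⟩
    refine ⟨⟨h1, h2⟩, ?_⟩
    rcases (H.ν_nonneg g).eq_or_lt with h | h
    · rw [← h, Real.logb_zero]; exact h1
    · exact (Real.logb_le_iff_le_rpow H.one_lt h).2 h3

theorem M_nonneg (g : G) : 0 ≤ H.M g := ((H.M_le_iff g _).1 le_rfl).1
theorem s_le_M (g : G) : (H.s g : ℝ) ≤ H.M g := ((H.M_le_iff g _).1 le_rfl).2.1
theorem ν_le_M (g : G) : H.ν g ≤ H.lam ^ H.M g := ((H.M_le_iff g _).1 le_rfl).2.2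

/-- The displacement. -/
noncomputable def D (g : G) : ℝ := 2 * H.M g - H.s g

/-- The generating set. -/
def X : Set G := {g | H.s g = 0 ∧ H.ν g ≤ 1} ∪ {H.t}

/-- The level of the meet. -/
noncomputable def mu (x y : G) : ℝ := H.M (x⁻¹ * y) + H.s x

theorem rpow_int (r : ℝ) (n : ℤ) : H.lam ^ (r + n) = H.lam ^ r * H.lam ^ n := by
  rw [Real.rpow_add H.lam_pos, Real.rpow_intCast]

theorem mu_le_iff (x y : G) (r : ℝ) : H.mu x y ≤ r ↔ (H.s x : ℝ) ≤ r ∧ (H.s y : ℝ) ≤ r ∧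
    H.ν (x⁻¹ * y) ≤ H.lam ^ (r - H.s x) := by
  unfold mu
  rw [← le_sub_iff_add_le, M_le_iff, H.s_mul, H.s_inv]
  constructor
  · rintro ⟨h1, h2, h3⟩
    push_cast at h2
    exact ⟨by linarith, by linarith, h3⟩
  · rintro ⟨h1, h2, h3⟩
    push_cast
    exact ⟨by linarith, by linarith, h3⟩

theorem mu_comm (x y : G) : H.mu x y = H.mu y x := by
  have key : ∀ x y, H.mu y x ≤ H.mu x y := by
    intro x y
    obtain ⟨h1, h2, h3⟩ := (H.mu_le_iff x y _).1 le_rfl
    rw [mu_le_iff]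
    refine ⟨h2, h1, ?_⟩
    have e : y⁻¹ * x = (x⁻¹ * y)⁻¹ := by group
    rw [e, H.ν_inv_eq, H.s_mul, H.s_inv]
    have h4 : H.lam ^ (H.mu x y - H.s y) =
        H.lam ^ (-(-H.s x + H.s y)) * H.lam ^ (H.mu x y - H.s x) := by
      rw [mul_comm, ← H.rpow_int]
      congr 1
      push_cast
      ring
    rw [h4]
    exact mul_le_mul_of_nonneg_left h3 (zpow_pos H.lam_pos _).le
  exact le_antisymm (key y x) (key x y)

/-- The constant. -/
noncomputable def c : ℝ := Real.logb H.lam 2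

theorem c_pos : 0 < H.c := Real.logb_pos H.one_lt one_lt_two

theorem lam_c : H.lam ^ H.c = 2 := Real.rpow_logb H.lam_pos H.one_lt.ne' two_pos

theorem mu_ultra (x y z : G) : H.mu x z ≤ max (H.mu x y) (H.mu y z) + H.c := by
  set r := max (H.mu x y) (H.mu y z) with hr
  obtain ⟨h1, h2, h3⟩ := (H.mu_le_iff x y r).1 (le_max_left _ _)
  obtain ⟨h4, h5, h6⟩ := (H.mu_le_iff y z r).1 (le_max_right _ _)
  have hc := H.c_pos
  rw [mu_le_iff]
  refine ⟨by linarith, by linarith, ?_⟩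
  have e : x⁻¹ * z = (x⁻¹ * y) * (y⁻¹ * z) := by group
  rw [e]
  refine (H.ν_mul _ _).trans ?_
  rw [H.s_mul, H.s_inv]
  have h7 : H.lam ^ (-H.s x + H.s y) * H.ν (y⁻¹ * z) ≤
      H.lam ^ (-H.s x + H.s y) * H.lam ^ (r - H.s y) :=
    mul_le_mul_of_nonneg_left h6 (zpow_pos H.lam_pos _).le
  have h8 : H.lam ^ (-H.s x + H.s y) * H.lam ^ (r - H.s y) = H.lam ^ (r - H.s x) := by
    rw [mul_comm, ← H.rpow_int]
    congr 1
    push_cast
    ring
  have h9 : H.lam ^ (r + H.c - H.s x) = 2 * H.lam ^ (r - H.s x) := by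
    rw [← H.lam_c, ← Real.rpow_add H.lam_pos]
    congr 1
    ring
  rw [h9]
  linarith

theorem s_le_mu (x y : G) : (H.s x : ℝ) ≤ H.mu x y := ((H.mu_le_iff x y _).1 le_rfl).1
theorem s_le_mu' (x y : G) : (H.s y : ℝ) ≤ H.mu x y := ((H.mu_le_iff x y _).1 le_rfl).2.1

theorem mu_one (x : G) : H.mu 1 x = H.M x := by
  unfold mu
  rw [inv_one, one_mul, H.s_one]; simp

theorem D_inv_mul (x y : G) : H.D (x⁻¹ * y) = 2 * H.mu x y - H.s x - H.s y := by
  unfold D mu
  rw [H.s_mul, H.s_inv]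
  push_cast
  ring

/-- The four point inequality. -/
theorem four (w x y z : G) : H.mu x z + H.mu w y ≤
    max (H.mu x y + H.mu w z) (H.mu y z + H.mu w x) + 2 * H.c := by
  have h1 := H.mu_ultra x y z
  have h2 := H.mu_ultra x w z
  have h3 := H.mu_ultra w x y
  have h4 := H.mu_ultra w z y
  have hc := H.c_pos
  rw [H.mu_comm x w] at h2
  rw [H.mu_comm z y] at h4
  rcases le_total (H.mu x y) (H.mu y z) with a1 | a1 <;>
  rcases le_total (H.mu w x) (H.mu w z) with a2 | a2 <;>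
  rcases le_total (H.mu w x) (H.mu x y) with a3 | a3 <;>
  rcases le_total (H.mu w z) (H.mu y z) with a4 | a4 <;>
  simp only [max_eq_left, max_eq_right, a1, a2, a3, a4] at h1 h2 h3 h4 <;>
  first
    | (refine le_trans ?_ (add_le_add (le_max_left _ _) le_rfl); linarith)
    | (refine le_trans ?_ (add_le_add (le_max_right _ _) le_rfl); linarith)

theorem t_mem : H.t ∈ H.X := Or.inr rfl

theorem t_pow_mem (n : ℕ) : H.t ^ n ∈ (H.X ∪ H.X⁻¹) ^ n :=
  Set.pow_mem_pow (Or.inl H.t_mem)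

theorem t_inv_pow_mem (n : ℕ) : (H.t ^ n)⁻¹ ∈ (H.X ∪ H.X⁻¹) ^ n := by
  rw [← inv_pow]
  exact Set.pow_mem_pow (Or.inr (by rw [Set.mem_inv, inv_inv]; exact H.t_mem))

/-- The upper bound for the word length. -/
theorem mem_word (g : G) : ∃ n : ℕ, (n : ℝ) ≤ H.D g + 3 ∧ g ∈ (H.X ∪ H.X⁻¹) ^ n := by
  have h0 := H.M_nonneg g
  set m := ⌈H.M g⌉₊ with hm
  have h1 : H.M g ≤ m := Nat.le_ceil _
  have h2 : (m : ℝ) < H.M g + 1 := Nat.ceil_lt_add_one h0
  have h3 : H.s g ≤ m := by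
    have := H.s_le_M g
    exact_mod_cast this.trans h1
  obtain ⟨k, hk⟩ : ∃ k : ℕ, (m : ℤ) - H.s g = k := ⟨((m : ℤ) - H.s g).toNat, by omega⟩
  set q := (H.t ^ m)⁻¹ * g * H.t ^ k with hq
  have hqX : q ∈ H.X := by
    left
    constructor
    · rw [hq, H.s_mul, H.s_mul, H.s_inv, H.s_pow, H.s_pow, H.s_t]
      omega
    · have e1 : H.ν q ≤ H.lam ^ (-(m : ℤ)) * H.ν g := by
        have a1 := H.ν_mul ((H.t ^ m)⁻¹ * g) (H.t ^ k)
        rw [H.ν_t_pow, mul_zero, add_zero] at a1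
        refine a1.trans ((H.ν_mul _ _).trans ?_)
        rw [H.ν_inv_eq, H.ν_t_pow, mul_zero, zero_add, H.s_inv, H.s_pow, H.s_t, mul_one]
      refine e1.trans ?_
      have e2 : H.ν g ≤ H.lam ^ (m : ℤ) := by
        refine (H.ν_le_M g).trans ?_
        rw [← Real.rpow_intCast]
        exact Real.rpow_le_rpow_of_exponent_le H.one_lt.le (by exact_mod_cast h1)
      calc H.lam ^ (-(m : ℤ)) * H.ν g ≤ H.lam ^ (-(m : ℤ)) * H.lam ^ (m : ℤ) :=
            mul_le_mul_of_nonneg_left e2 (zpow_pos H.lam_pos _).le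
        _ = 1 := by rw [← zpow_add₀ H.lam_pos.ne', neg_add_cancel, zpow_zero]
  refine ⟨m + 1 + k, ?_, ?_⟩
  · have : (k : ℝ) = m - H.s g := by exact_mod_cast hk.symm
    push_cast
    rw [this]
    unfold D
    linarith
  · have e : g = H.t ^ m * q * (H.t ^ k)⁻¹ := by rw [hq]; group
    rw [e, pow_add, pow_add, pow_one]
    exact Set.mul_mem_mul (Set.mul_mem_mul (H.t_pow_mem m) (Or.inl hqX)) (H.t_inv_pow_mem k)

theorem closure_X : Subgroup.closure H.X = ⊤ := by
  rw [eq_top_iff]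
  intro g _
  obtain ⟨n, -, hn⟩ := H.mem_word g
  have key : ∀ n : ℕ, ∀ g : G, g ∈ (H.X ∪ H.X⁻¹) ^ n → g ∈ Subgroup.closure H.X := by
    intro n
    induction n with
    | zero =>
      intro g hg
      rw [pow_zero] at hg
      have : g = 1 := hg
      rw [this]; exact one_mem _
    | succ n ih =>
      intro g hg
      rw [pow_succ] at hg
      obtain ⟨a, ha, b, hb, rfl⟩ := hg
      refine mul_mem (ih a ha) ?_
      rcases hb with hb | hb
      · exact Subgroup.subset_closure hb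
      · have := Subgroup.subset_closure (k := H.X) hb
        exact (inv_mem_iff).1 this
  exact key n g hn

theorem wl_le (g : G) : (wl H.X g : ℝ) ≤ H.D g + 3 := by
  obtain ⟨n, h1, h2⟩ := H.mem_word g
  have h3 : wl H.X g ≤ n := QP.wl_le h2
  have h4 : (wl H.X g : ℝ) ≤ n := by exact_mod_cast h3
  linarith

/-- The effect of a word. -/
theorem word_bound (n : ℕ) {g : G} (h : g ∈ (H.X ∪ H.X⁻¹) ^ n) :
    ∃ (m : ℤ) (N : ℕ), 0 ≤ m ∧ H.s g ≤ m ∧ H.ν g ≤ N * H.lam ^ m ∧ 2 * m - H.s g + N ≤ n := by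
  induction n generalizing g with
  | zero =>
    rw [pow_zero] at h
    have : g = 1 := h
    refine ⟨0, 0, le_rfl, ?_, ?_, ?_⟩
    · rw [this, H.s_one]
    · rw [this, H.ν_one]; simp
    · rw [this, H.s_one]; simp
  | succ n ih =>
    rw [pow_succ] at h
    obtain ⟨a, ha, b, hb, rfl⟩ := h
    obtain ⟨m, N, h1, h2, h3, h4⟩ := ih ha
    have hlm : 0 < H.lam ^ m := zpow_pos H.lam_pos _
    -- horizontal and vertical steps
    have hb' : (H.s b = 0 ∧ H.ν b ≤ 1) ∨ ((H.s b = 1 ∨ H.s b = -1) ∧ H.ν b = 0) := by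
      rcases hb with (⟨hb1, hb2⟩ | hb) | (⟨hb1, hb2⟩ | hb)
      · exact Or.inl ⟨hb1, hb2⟩
      · right
        have : b = H.t := hb
        rw [this]
        exact ⟨Or.inl H.s_t, H.ν_t⟩
      · left
        rw [H.s_inv] at hb1
        have hb0 : H.s b = 0 := by omega
        rw [H.ν_inv_eq, hb0, neg_zero, zpow_zero, one_mul] at hb2
        exact ⟨hb0, hb2⟩
      · right
        have : b = H.t⁻¹ := by rw [← inv_eq_iff_eq_inv]; exact hb
        rw [this, H.s_inv, H.ν_inv_eq, H.ν_t, mul_zero, H.s_t]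
        exact ⟨Or.inr rfl, rfl⟩
    have hs : H.s (a * b) = H.s a + H.s b := H.s_mul _ _
    have hν : H.ν (a * b) ≤ H.ν a + H.lam ^ H.s a * H.ν b := H.ν_mul _ _
    rcases hb' with ⟨b1, b2⟩ | ⟨b1, b2⟩
    · refine ⟨m, N + 1, h1, ?_, ?_, ?_⟩
      · show H.s (a * b) ≤ m
        omega
      · show H.ν (a * b) ≤ _
        have e1 : H.lam ^ H.s a ≤ H.lam ^ m := zpow_le_zpow_right₀ H.one_lt.le h2
        have e2 : H.lam ^ H.s a * H.ν b ≤ H.lam ^ m * 1 :=
          mul_le_mul e1 b2 (H.ν_nonneg b) hlm.le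
        push_cast
        linarith
      · show 2 * m - H.s (a * b) + _ ≤ _
        push_cast
        omega
    · rw [b2, mul_zero, add_zero] at hν
      by_cases hcase : H.s a + H.s b ≤ m
      · refine ⟨m, N, h1, ?_, ?_, ?_⟩
        · show H.s (a * b) ≤ m
          omega
        · exact hν.trans h3
        · show 2 * m - H.s (a * b) + _ ≤ _
          push_cast
          omega
      · refine ⟨m + 1, N, by omega, ?_, ?_, ?_⟩
        · show H.s (a * b) ≤ m + 1
          omega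
        · have e1 : H.lam ^ m ≤ H.lam ^ (m + 1) := zpow_le_zpow_right₀ H.one_lt.le (by omega)
          exact hν.trans (h3.trans (mul_le_mul_of_nonneg_left e1 (by positivity)))
        · show 2 * (m + 1) - H.s (a * b) + _ ≤ _
          push_cast
          omega

/-- The constant of the lower bound. -/
noncomputable def c₂ : ℝ := max 0 (2 / Real.log H.lam * (Real.log (2 / Real.log H.lam) - 1))

theorem c₂_nonneg : 0 ≤ H.c₂ := le_max_left _ _

theorem log_bound (N : ℕ) : 2 * Real.logb H.lam (max 1 (N : ℝ)) - N ≤ H.c₂ := by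
  rcases Nat.eq_zero_or_pos N with rfl | hN
  · simp [c₂]
  · have h1 : (1 : ℝ) ≤ N := by exact_mod_cast hN
    rw [max_eq_right h1]
    refine le_trans ?_ (le_max_right _ _)
    have hl : 0 < Real.log H.lam := Real.log_pos H.one_lt
    set K := 2 / Real.log H.lam with hK
    have hK0 : 0 < K := by positivity
    have h2 : Real.log (N / K) ≤ N / K - 1 := Real.log_le_sub_one_of_pos (by positivity)
    rw [Real.log_div (by positivity) hK0.ne'] at h2
    have h3 : 2 * Real.logb H.lam N = K * Real.log N := by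
      unfold Real.logb
      rw [hK]; ring
    have h4 : K * (N / K) = N := by field_simp
    rw [h3]
    nlinarith

theorem le_wl (g : G) : H.D g ≤ wl H.X g + H.c₂ := by
  obtain ⟨m, N, h1, h2, h3, h4⟩ := H.word_bound _ (wl_spec H.closure_X g)
  have h5 := H.log_bound N
  have h6 : (0 : ℝ) < max 1 (N : ℝ) := lt_of_lt_of_le one_pos (le_max_left _ _)
  have h7 : H.M g ≤ m + Real.logb H.lam (max 1 (N : ℝ)) := by
    rw [M_le_iff]
    have h8 : 0 ≤ Real.logb H.lam (max 1 (N : ℝ)) := Real.logb_nonneg H.one_lt (le_max_left _ _)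
    have h1' : (0 : ℝ) ≤ m := by exact_mod_cast h1
    have h2' : (H.s g : ℝ) ≤ m := by exact_mod_cast h2
    refine ⟨by linarith, by linarith, h3.trans ?_⟩
    rw [Real.rpow_add H.lam_pos, Real.rpow_logb H.lam_pos H.one_lt.ne' h6, Real.rpow_intCast,
      mul_comm]
    exact mul_le_mul_of_nonneg_left (le_max_right _ _) (zpow_pos H.lam_pos _).le
  have h4' : 2 * (m : ℝ) - H.s g + N ≤ wl H.X g := by exact_mod_cast h4
  unfold D
  linarith

/-- The Gromov product up to a constant. -/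
theorem gp_bounds (a b : G) :
    H.M a + H.M b - H.mu a b - (H.c₂ + 3) ≤
      ((wl H.X a : ℝ) + wl H.X b - wl H.X (a⁻¹ * b)) / 2 ∧
    ((wl H.X a : ℝ) + wl H.X b - wl H.X (a⁻¹ * b)) / 2 ≤
      H.M a + H.M b - H.mu a b + (H.c₂ + 3) := by
  have h1 := H.wl_le a
  have h2 := H.wl_le b
  have h3 := H.wl_le (a⁻¹ * b)
  have h4 := H.le_wl a
  have h5 := H.le_wl b
  have h6 := H.le_wl (a⁻¹ * b)
  rw [H.D_inv_mul] at h3 h6
  have h7 : H.D a = 2 * H.M a - H.s a := rfl
  have h8 : H.D b = 2 * H.M b - H.s b := rfl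
  have h9 := H.c₂_nonneg
  constructor <;> linarith

end Horo

end Pool.Agent.Q104.HS
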