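import Pool.Agent.Q104.HS.Defs
import Pool.Agent.Q104.HS.Horo

set_option autoImplicit false

/-!
# The structure of a horocyclic datum is quasi-parabolic
-/

open Pointwise

namespace Pool.Agent.Q104.HS

open Pool.Agent.Q104.QP

variable {G : Type*} [Group G] (H : Horo G)

namespace Horo

theorem gp_ge (a b : G) : H.M a + H.M b - H.mu a b - (H.c₂ + 3) ≤ gp H.X a b :=
  (H.gp_bounds a b).1

theorem gp_le (a b : G) : gp H.X a b ≤ H.M a + H.M b - H.mu a b + (H.c₂ + 3) :=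
  (H.gp_bounds a b).2

theorem hyperbolic : Hyperbolic H.X := by
  refine ⟨2 * (H.c₂ + 3) + 2 * H.c, fun x y z => ?_⟩
  have h1 := H.gp_le x y
  have h2 := H.gp_le y z
  have h3 := H.gp_ge x z
  have h4 := H.four 1 x y z
  rw [mu_one, mu_one, mu_one] at h4
  rcases max_cases (H.mu x y + H.M z) (H.mu y z + H.M x) with ⟨h, -⟩ | ⟨h, -⟩
  · rw [h] at h4
    have := min_le_left (gp H.X x y) (gp H.X y z)
    linarith
  · rw [h] at h4
    have := min_le_right (gp H.X x y) (gp H.X y z)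
    linarith

theorem M_t_pow (n : ℕ) : H.M (H.t ^ n) = n := by
  unfold M
  rw [H.ν_t_pow, Real.logb_zero, H.s_pow, H.s_t]
  simp

theorem M_t_zpow (n : ℤ) : H.M (H.t ^ n) = max 0 (n : ℝ) := by
  unfold M
  rw [H.ν_t_zpow, Real.logb_zero, H.s_t_zpow]
  simp

theorem lox_of_s {g : G} (h : H.s g ≠ 0) : Loxodromic H.X g := by
  have h1 : ∀ n : ℕ, (n : ℝ) - H.c₂ ≤ wl H.X (g ^ n) := by
    intro n
    have h2 := H.le_wl (g ^ n)
    have h3 : (n : ℝ) ≤ H.D (g ^ n) := by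
      have h4 := H.M_nonneg (g ^ n)
      have h5 := H.s_le_M (g ^ n)
      unfold D
      rw [H.s_pow] at h5 ⊢
      push_cast at h5 ⊢
      rcases lt_or_gt_of_ne h with h6 | h6
      · have : (H.s g : ℝ) ≤ -1 := by exact_mod_cast Int.le_sub_one_of_lt h6
        nlinarith
      · have : (1 : ℝ) ≤ H.s g := by exact_mod_cast h6
        nlinarith
    linarith
  have hc := H.c₂_nonneg
  refine ⟨1 / (1 + H.c₂), by positivity, fun n => ?_⟩
  have h2 := h1 n
  rcases Nat.eq_zero_or_pos n with rfl | hn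
  · simp
  have h3 : (1 : ℝ) ≤ wl H.X (g ^ n) := by
    have : wl H.X (g ^ n) ≠ 0 := by
      intro h0
      have h4 := wl_spec H.closure_X (g ^ n)
      rw [h0, pow_zero] at h4
      have h5 : g ^ n = 1 := h4
      have h6 := H.s_pow g n
      rw [h5, H.s_one] at h6
      rcases mul_eq_zero.1 h6.symm with h7 | h7
      · omega
      · exact h h7
    exact_mod_cast Nat.one_le_iff_ne_zero.2 this
  rw [one_div, inv_mul_le_iff₀ (by positivity)]
  by_cases h4 : (n : ℝ) ≤ 1 + H.c₂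
  · nlinarith
  · push Not at h4
    have h5 : (0 : ℝ) ≤ n - 1 - H.c₂ := by linarith
    nlinarith [mul_nonneg hc h5]

/-- Sequences which go up converge to the same boundary point. -/
theorem gp_up (a b : G) : min (H.s a : ℝ) (H.s b) - (H.c + (H.c₂ + 3)) ≤ gp H.X a b := by
  have h1 := H.gp_ge a b
  have h2 := H.mu_ultra a 1 b
  rw [H.mu_comm a 1, mu_one, mu_one] at h2
  have h3 := H.s_le_M a
  have h4 := H.s_le_M b
  have h5 := min_le_left (H.s a : ℝ) (H.s b)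
  have h6 := min_le_right (H.s a : ℝ) (H.s b)
  rcases max_cases (H.M a) (H.M b) with ⟨h, -⟩ | ⟨h, -⟩ <;> rw [h] at h2 <;> linarith

/-- The sequence `g t ^ n`. -/
noncomputable def up (g : G) : GromovSeq H.X where
  seq n := g * H.t ^ n
  conv K := by
    obtain ⟨N, hN⟩ := exists_nat_ge (K + (H.c + (H.c₂ + 3)) - H.s g)
    refine ⟨N, fun m n hm hn => ?_⟩
    have h1 := H.gp_up (g * H.t ^ m) (g * H.t ^ n)
    rw [H.s_mul, H.s_mul, H.s_pow, H.s_pow, H.s_t] at h1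
    push_cast at h1
    have hm' : (N : ℝ) ≤ m := by exact_mod_cast hm
    have hn' : (N : ℝ) ≤ n := by exact_mod_cast hn
    have h2 : (H.s g : ℝ) + N ≤ min (H.s g + (m : ℝ) * 1) (H.s g + n * 1) :=
      le_min (by linarith) (by linarith)
    linarith

theorem up_equiv (g h : G) : (H.up g).Equiv (H.up h) := by
  intro K
  obtain ⟨N, hN⟩ := exists_nat_ge (K + (H.c + (H.c₂ + 3)) + |(H.s g : ℝ)| + |(H.s h : ℝ)|)
  refine ⟨N, fun m n hm hn => ?_⟩
  have h1 := H.gp_up (g * H.t ^ m) (h * H.t ^ n)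
  rw [H.s_mul, H.s_mul, H.s_pow, H.s_pow, H.s_t] at h1
  push_cast at h1
  have hm' : (N : ℝ) ≤ m := by exact_mod_cast hm
  have hn' : (N : ℝ) ≤ n := by exact_mod_cast hn
  have e1 := neg_abs_le (H.s g : ℝ)
  have e2 := neg_abs_le (H.s h : ℝ)
  have e3 := abs_nonneg (H.s g : ℝ)
  have e4 := abs_nonneg (H.s h : ℝ)
  have h2 : (N : ℝ) - |(H.s g : ℝ)| - |(H.s h : ℝ)| ≤
      min (H.s g + (m : ℝ) * 1) (H.s h + n * 1) := le_min (by linarith) (by linarith)
  show K ≤ gp H.X (g * H.t ^ m) (h * H.t ^ n)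
  linarith

theorem fixes_up (g : G) : Fixes g (H.up 1).lim :=
  ⟨H.up 1, H.up g, rfl, Quot.sound (H.up_equiv g 1), fun n => by
    show g * H.t ^ n = g * (1 * H.t ^ n)
    rw [one_mul]⟩

/-- The sequence `h t ^ (-n)`. -/
noncomputable def down (h : G) : GromovSeq H.X where
  seq n := h * (H.t ^ n)⁻¹
  conv K := by
    obtain ⟨N, hN⟩ := exists_nat_ge (K + (H.c₂ + 3) + H.s h)
    refine ⟨N, fun m n hm hn => ?_⟩
    have h1 := H.gp_ge (h * (H.t ^ m)⁻¹) (h * (H.t ^ n)⁻¹)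
    have h2 := H.M_nonneg (h * (H.t ^ m)⁻¹)
    have h3 := H.M_nonneg (h * (H.t ^ n)⁻¹)
    have h4 : H.mu (h * (H.t ^ m)⁻¹) (h * (H.t ^ n)⁻¹) ≤ H.s h - N := by
      rw [mu_le_iff, H.s_mul, H.s_mul, H.s_inv, H.s_inv, H.s_pow, H.s_pow, H.s_t]
      have e : (h * (H.t ^ m)⁻¹)⁻¹ * (h * (H.t ^ n)⁻¹) = H.t ^ ((m : ℤ) - n) := by
        rw [zpow_sub, zpow_natCast, zpow_natCast]; group
      rw [e, H.ν_t_zpow]
      push_cast
      have hm' : (N : ℝ) ≤ m := by exact_mod_cast hm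
      have hn' : (N : ℝ) ≤ n := by exact_mod_cast hn
      exact ⟨by linarith, by linarith, (Real.rpow_pos_of_pos H.lam_pos _).le⟩
    linarith

/-- Downward sequences are not equivalent if their distance has positive norm. -/
theorem down_not_equiv {g h : G} (hgh : 0 < H.ν (g⁻¹ * h)) : ¬ (H.down g).Equiv (H.down h) := by
  intro he
  obtain ⟨N, hN⟩ := he (H.M g + H.M h - (Real.logb H.lam (H.ν (g⁻¹ * h)) + H.s g) + (H.c₂ + 3) + 1)
  have h1 := hN N N le_rfl le_rfl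
  have h2 := H.gp_le (g * (H.t ^ N)⁻¹) (h * (H.t ^ N)⁻¹)
  have key : ∀ x : G, H.M (x * (H.t ^ N)⁻¹) ≤ H.M x := by
    intro x
    rw [M_le_iff]
    refine ⟨H.M_nonneg x, ?_, ?_⟩
    · rw [H.s_mul, H.s_inv, H.s_pow, H.s_t]
      have := H.s_le_M x
      push_cast
      have hN0 : (0 : ℝ) ≤ N := by positivity
      linarith
    · refine le_trans ?_ (H.ν_le_M x)
      refine (H.ν_mul _ _).trans ?_
      rw [H.ν_inv_eq, H.ν_t_pow]; simp
  have h3 := key g
  have h4 := key h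
  have h5 : Real.logb H.lam (H.ν (g⁻¹ * h)) + H.s g ≤ H.mu (g * (H.t ^ N)⁻¹) (h * (H.t ^ N)⁻¹) := by
    obtain ⟨-, -, h6⟩ := (H.mu_le_iff (g * (H.t ^ N)⁻¹) (h * (H.t ^ N)⁻¹) _).1 le_rfl
    set r := H.mu (g * (H.t ^ N)⁻¹) (h * (H.t ^ N)⁻¹) with hr
    set z := (g * (H.t ^ N)⁻¹)⁻¹ * (h * (H.t ^ N)⁻¹) with hz
    rw [← le_sub_iff_add_le, Real.logb_le_iff_le_rpow H.one_lt hgh]
    have e : g⁻¹ * h = (H.t ^ N)⁻¹ * (z * H.t ^ N) := by rw [hz]; group
    rw [e]
    have e1 : H.ν ((H.t ^ N)⁻¹ * (z * H.t ^ N)) ≤ H.lam ^ (-(N : ℤ)) * H.ν z := by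
      refine (H.ν_mul _ _).trans ?_
      rw [H.ν_inv_eq, H.ν_t_pow, mul_zero, zero_add, H.s_inv, H.s_pow, H.s_t, mul_one]
      apply mul_le_mul_of_nonneg_left _ (zpow_pos H.lam_pos _).le
      refine (H.ν_mul _ _).trans ?_
      rw [H.ν_t_pow]; simp
    refine e1.trans ?_
    rw [H.s_mul, H.s_inv, H.s_pow, H.s_t, mul_one] at h6
    have e2 : H.lam ^ (r - H.s g) = H.lam ^ (-(N : ℤ)) * H.lam ^ (r - (H.s g + -(N : ℤ) : ℤ)) := by
      rw [mul_comm, ← H.rpow_int]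
      congr 1
      push_cast
      ring
    rw [e2]
    exact mul_le_mul_of_nonneg_left h6 (zpow_pos H.lam_pos _).le
  have h1' : H.M g + H.M h - (Real.logb H.lam (H.ν (g⁻¹ * h)) + H.s g) + (H.c₂ + 3) + 1 ≤
    gp H.X (g * (H.t ^ N)⁻¹) (h * (H.t ^ N)⁻¹) := h1
  linarith

end Horo

theorem gp_comm {X : Set G} (hX : Subgroup.closure X = ⊤) (a b : G) : gp X a b = gp X b a := by
  unfold gp
  have : b⁻¹ * a = (a⁻¹ * b)⁻¹ := by group
  rw [this, wl_inv hX]
  ring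

/-- In a hyperbolic Cayley graph the equivalence of sequences is an equivalence relation. -/
theorem equivalence {X : Set G} (hX : Subgroup.closure X = ⊤) (h : Hyperbolic X) :
    Equivalence (GromovSeq.Equiv (X := X)) := by
  obtain ⟨δ, hδ⟩ := h
  refine ⟨fun u => u.conv, ?_, ?_⟩
  · intro u v huv K
    obtain ⟨N, hN⟩ := huv K
    refine ⟨N, fun m n hm hn => ?_⟩
    rw [gp_comm hX]
    exact hN n m hn hm
  · intro u v w huv hvw K
    obtain ⟨N, hN⟩ := huv (K + δ)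
    obtain ⟨N', hN'⟩ := hvw (K + δ)
    refine ⟨max N N', fun m n hm hn => ?_⟩
    have h1 := hN m (max N N') ((le_max_left _ _).trans hm) (le_max_left _ _)
    have h2 := hN' (max N N') n (le_max_right _ _) ((le_max_right _ _).trans hn)
    have h3 := hδ (u.seq m) (v.seq (max N N')) (w.seq n)
    have h4 := le_min h1 h2
    linarith

theorem lim_eq_iff {X : Set G} (hX : Subgroup.closure X = ⊤) (h : Hyperbolic X)
    (u v : GromovSeq X) : u.lim = v.lim ↔ u.Equiv v := by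
  constructor
  · intro h1
    have h2 := Quot.eqvGen_exact h1
    exact ((equivalence hX h).eqvGen_iff).1 h2
  · intro h1
    exact Quot.sound h1

theorem Horo.quasiParabolic (h : ℕ → G) (hh : ∀ i j, i ≠ j → 0 < H.ν ((h i)⁻¹ * h j)) :
    QuasiParabolic H.X := by
  refine ⟨⟨H.t, H.lox_of_s (by rw [H.s_t]; norm_num)⟩, ⟨(H.up 1).lim, H.fixes_up⟩, ?_⟩
  apply Infinite.of_injective (fun i => (H.down (h i)).lim)
  intro i j hij
  by_contra hne
  exact H.down_not_equiv (hh i j hne) ((lim_eq_iff H.closure_X H.hyperbolic _ _).1 hij)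

end Pool.Agent.Q104.HS
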