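import Pool.Agent.Q104.QP.Word

set_option autoImplicit false

/-!
# The poset of quasi-parabolic hyperbolic structures of a group
-/

open Pointwise

namespace Pool.Agent.Q104.HS

open Pool.Agent.Q104.QP

/-- The Gromov product, based at the vertex `1`, of two vertices of the Cayley graph of `G` with
respect to `X`. -/
noncomputable def gp {G : Type*} [Group G] (X : Set G) (a b : G) : ℝ :=
  ((wl X a : ℝ) + (wl X b : ℝ) - (wl X (a⁻¹ * b) : ℝ)) / 2

/-- The Cayley graph of `G` with respect to `X` is Gromov hyperbolic (four point condition on the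
vertices; by left invariance it is enough to use the base vertex `1`). -/
def Hyperbolic {G : Type*} [Group G] (X : Set G) : Prop :=
  ∃ δ : ℝ, ∀ x y z : G, min (gp X x y) (gp X y z) - δ ≤ gp X x z

/-- A sequence of vertices of the Cayley graph which converges to infinity in the sense of
Gromov. -/
structure GromovSeq {G : Type*} [Group G] (X : Set G) where
  /-- the sequence -/
  seq : ℕ → G
  conv : ∀ K : ℝ, ∃ N : ℕ, ∀ m n : ℕ, N ≤ m → N ≤ n → K ≤ gp X (seq m) (seq n)

/-- Two sequences converging to infinity are equivalent if their Gromov products tend to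
infinity. -/
def GromovSeq.Equiv {G : Type*} [Group G] {X : Set G} (u v : GromovSeq X) : Prop :=
  ∀ K : ℝ, ∃ N : ℕ, ∀ m n : ℕ, N ≤ m → N ≤ n → K ≤ gp X (u.seq m) (v.seq n)

/-- The Gromov boundary of the Cayley graph.  All its points are limits of vertices, and the
vertices are one orbit of `G`, so that this is also the limit set of `G`. -/
def Boundary {G : Type*} [Group G] (X : Set G) : Type _ := Quot (GromovSeq.Equiv (X := X))

/-- The boundary point defined by a sequence. -/
def GromovSeq.lim {G : Type*} [Group G] {X : Set G} (u : GromovSeq X) : Boundary X := Quot.mk _ u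

/-- The element `g` fixes the boundary point `ξ`: for some sequence `u` converging to `ξ` the
sequence `g u` converges to `ξ`. -/
def Fixes {G : Type*} [Group G] {X : Set G} (g : G) (ξ : Boundary X) : Prop :=
  ∃ u v : GromovSeq X, u.lim = ξ ∧ v.lim = ξ ∧ ∀ n, v.seq n = g * u.seq n

/-- The element `g` acts as a loxodromic isometry of the Cayley graph. -/
def Loxodromic {G : Type*} [Group G] (X : Set G) (g : G) : Prop :=
  ∃ c : ℝ, 0 < c ∧ ∀ n : ℕ, c * n ≤ wl X (g ^ n)

/-- The action of `G` on its Cayley graph with respect to `X` is quasi-parabolic: there is a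
loxodromic element, `G` fixes a boundary point, and the limit set is infinite. -/
def QuasiParabolic {G : Type*} [Group G] (X : Set G) : Prop :=
  (∃ g : G, Loxodromic X g) ∧ (∃ ξ : Boundary X, ∀ g : G, Fixes g ξ) ∧ Infinite (Boundary X)

/-- The generating sets of `G`. -/
def GenSet (G : Type*) [Group G] : Type _ := {X : Set G // Subgroup.closure X = ⊤}

/-- The preorder of generating sets: `X ≤ Y` if the elements of `Y` have bounded word length with
respect to `X`. -/
instance GenSet.instPreorder (G : Type*) [Group G] : Preorder (GenSet G) where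
  le X Y := ∃ C : ℕ, ∀ y ∈ Y.1, wl X.1 y ≤ C
  le_refl X := ⟨1, fun y hy => wl_mem hy⟩
  le_trans X Y Z h h' := by
    obtain ⟨C, hC⟩ := h
    obtain ⟨C', hC'⟩ := h'
    refine ⟨C' * C, fun z hz => ?_⟩
    have key : ∀ n : ℕ, ∀ g ∈ (Y.1 ∪ Y.1⁻¹) ^ n, wl X.1 g ≤ n * C := by
      intro n
      induction n with
      | zero =>
        intro g hg
        rw [pow_zero] at hg
        have : g = 1 := hg
        rw [this, wl_one]; omega
      | succ n ih =>
        intro g hg
        rw [pow_succ] at hg
        obtain ⟨a, ha, b, hb, rfl⟩ := hg
        have h1 := ih a ha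
        have h2 : wl X.1 b ≤ C := by
          rcases hb with hb | hb
          · exact hC b hb
          · rw [← wl_inv X.2]; exact hC b⁻¹ hb
        have h3 := wl_mul X.2 a b
        rw [Nat.succ_mul]
        show wl X.1 (a * b) ≤ _
        omega
    exact (key _ z (wl_spec Y.2 z)).trans (Nat.mul_le_mul_right C (hC' z hz))

/-- The poset of equivalence classes of generating sets. -/
abbrev Str (G : Type*) [Group G] : Type _ := Antisymmetrization (GenSet G) (· ≤ ·)

/-- The quasi-parabolic hyperbolic structures on `G`: the classes of the generating sets whose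
Cayley graph is hyperbolic with quasi-parabolic action of `G`. -/
def Hqp (G : Type*) [Group G] : Set (Str G) :=
  {c | ∃ X : GenSet G, toAntisymmetrization (· ≤ ·) X = c ∧ Hyperbolic X.1 ∧ QuasiParabolic X.1}

end Pool.Agent.Q104.HS
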