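import Pool.Agent.Q104.HS.Wr

set_option autoImplicit false

/-!
# Finite generation of wreath products, surjectivity of the word length
-/

open Pointwise

namespace Pool.Agent.Q104.HS

open Pool.Agent.Q104.QP

namespace Wr

variable {A : Type*} [Group A]

theorem t_zpow (n : ℤ) : (t : Wr A) ^ n = ⟨fun _ => 1, n, by simp⟩ := by
  induction n with
  | zero => rw [zpow_zero]; rfl
  | succ n ih =>
    rw [zpow_add_one, ih]
    ext k
    · show (1 : A) * 1 = 1
      rw [one_mul]
    · rfl
  | pred n ih =>
    rw [zpow_sub_one, ih]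
    ext k
    · show (1 : A) * (1 : A)⁻¹ = 1
      rw [inv_one, one_mul]
    · rfl

theorem δ_f_same (k : ℤ) (a : A) : (δ k a).f k = a := by
  classical
  exact Pi.mulSingle_eq_same (M := fun _ : ℤ => A) k a

theorem δ_f_ne {k n : ℤ} (h : n ≠ k) (a : A) : (δ k a).f n = 1 := by
  classical
  exact Pi.mulSingle_eq_of_ne (M := fun _ : ℤ => A) h a

theorem conj_t (k : ℤ) (a : A) : (t : Wr A) ^ k * δ 0 a * ((t : Wr A) ^ k)⁻¹ = δ k a := by
  ext n
  · rw [mul_f, mul_f, mul_s, inv_f]
    rw [t_zpow]
    show (1 : A) * (δ 0 a).f (n - k) * ((1 : A))⁻¹ = (δ k a).f n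
    rw [one_mul, inv_one, mul_one]
    by_cases h : n = k
    · subst h
      rw [sub_self, δ_f_same, δ_f_same]
    · rw [δ_f_ne h, δ_f_ne (by omega)]
  · rw [mul_s, mul_s, inv_s, t_zpow]
    show k + 0 + -k = 0
    ring

theorem mem_of_gen (H : Subgroup (Wr A)) (ht : t ∈ H) (hd : ∀ a, δ 0 a ∈ H) (x : Wr A) : x ∈ H := by
  have hδ : ∀ k a, δ k a ∈ H := fun k a => by
    rw [← conj_t]
    exact H.mul_mem (H.mul_mem (H.zpow_mem ht k) (hd a)) (H.inv_mem (H.zpow_mem ht k))
  obtain ⟨m, hm⟩ : ∃ m, x.fin.toFinset.card ≤ m := ⟨_, le_rfl⟩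
  induction m generalizing x with
  | zero =>
    have h0 : x.fin.toFinset = ∅ := Finset.card_eq_zero.1 (Nat.le_zero.1 hm)
    have h1 : ∀ n, x.f n = 1 := by
      intro n
      by_contra hn
      have : n ∈ x.fin.toFinset := by simpa using hn
      rw [h0] at this
      simp at this
    have : x = t ^ x.s := by
      rw [t_zpow]
      ext n
      · exact h1 n
      · rfl
    rw [this]
    exact H.zpow_mem ht _
  | succ m ih =>
    by_cases h0 : x.fin.toFinset = ∅
    · exact ih x (by rw [h0]; simp)
    · obtain ⟨k, hk⟩ := Finset.nonempty_iff_ne_empty.2 h0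
      have h1 : (δ k (x.f k))⁻¹ * x ∈ H := by
        apply ih
        have h2 : ((δ k (x.f k))⁻¹ * x).fin.toFinset ⊆ x.fin.toFinset.erase k := by
          intro n hn
          rw [Set.Finite.mem_toFinset, Set.mem_ofPred_eq, mul_f, inv_f, inv_s] at hn
          change ((δ k (x.f k)).f (n + 0))⁻¹ * x.f (n - -0) ≠ 1 at hn
          rw [add_zero, neg_zero, sub_zero] at hn
          rw [Finset.mem_erase, Set.Finite.mem_toFinset, Set.mem_ofPred_eq]
          have h3 : n ≠ k := by
            rintro rfl
            rw [δ_f_same, inv_mul_cancel] at hn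
            exact hn rfl
          rw [δ_f_ne h3, inv_one, one_mul] at hn
          exact ⟨h3, hn⟩
        have h3 := Finset.card_le_card h2
        rw [Finset.card_erase_of_mem hk] at h3
        omega
      have h2 := H.mul_mem (hδ k (x.f k)) h1
      rwa [mul_inv_cancel_left] at h2

theorem fg [Group.FG A] : Group.FG (Wr A) := by
  classical
  obtain ⟨n, S, hn, hS⟩ := (Group.fg_iff' (G := A)).1 inferInstance
  rw [Group.fg_iff']
  refine ⟨_, insert t (S.image (δ 0)), rfl, ?_⟩
  rw [eq_top_iff]
  rintro x -
  apply mem_of_gen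
  · exact Subgroup.subset_closure (by simp)
  · intro a
    have ha : a ∈ Subgroup.closure (S : Set A) := by rw [hS]; trivial
    induction ha using Subgroup.closure_induction with
    | mem y hy =>
      apply Subgroup.subset_closure
      rw [Finset.coe_insert, Finset.coe_image]
      exact Or.inr ⟨y, hy, rfl⟩
    | one =>
      have : (δ 0 (1 : A)) = 1 := by
        ext n
        · by_cases h : n = 0
          · subst h; rw [δ_f_same]; rfl
          · rw [δ_f_ne h]; rfl
        · rfl
      rw [this]
      exact Subgroup.one_mem _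
    | mul y z _ _ hy hz =>
      have : (δ 0 (y * z) : Wr A) = δ 0 y * δ 0 z := by
        ext n
        · rw [mul_f]
          change _ = (δ 0 y).f n * (δ 0 z).f (n - 0)
          rw [sub_zero]
          by_cases h : n = 0
          · subst h; rw [δ_f_same, δ_f_same, δ_f_same]
          · rw [δ_f_ne h, δ_f_ne h, δ_f_ne h, one_mul]
        · rfl
      rw [this]
      exact Subgroup.mul_mem _ hy hz
    | inv y _ hy =>
      have : (δ 0 y⁻¹ : Wr A) = (δ 0 y)⁻¹ := by
        ext n
        · rw [inv_f]
          change _ = ((δ 0 y).f (n + 0))⁻¹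
          rw [add_zero]
          by_cases h : n = 0
          · subst h; rw [δ_f_same, δ_f_same]
          · rw [δ_f_ne h, δ_f_ne h, inv_one]
        · rfl
      rw [this]
      exact Subgroup.inv_mem _ hy

/-- In a finitely generated infinite group every natural number is a word length. -/
theorem wl_surjective [Infinite A] {S : Set A} (hS : Subgroup.closure S = ⊤) (hfin : S.Finite) :
    Function.Surjective (wl S) := by
  intro n
  rcases Nat.eq_zero_or_pos n with rfl | hn
  · exact ⟨1, wl_one S⟩
  · by_contra hcon
    push Not at hcon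
    have hfin' : (S ∪ S⁻¹).Finite := hfin.union hfin.inv
    have key : ∀ k : ℕ, ∀ g ∈ (S ∪ S⁻¹) ^ k, wl S g < n := by
      intro k
      induction k with
      | zero =>
        intro g hg
        rw [pow_zero] at hg
        have : g = 1 := hg
        rw [this, wl_one]; exact hn
      | succ k ih =>
        intro g hg
        rw [pow_succ] at hg
        obtain ⟨a, ha, b, hb, rfl⟩ := hg
        have h1 := ih a ha
        have h2 : wl S b ≤ 1 := by
          rcases hb with hb | hb
          · exact wl_mem hb
          · rw [← wl_inv hS]; exact wl_mem hb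
        have h3 := wl_mul hS a b
        have h4 := hcon (a * b)
        show wl S (a * b) < n
        omega
    have hall : (Set.univ : Set A) ⊆ ⋃ k ∈ Finset.range n, (S ∪ S⁻¹) ^ k := by
      intro g _
      have h1 := key _ g (wl_spec hS g)
      simp only [Set.mem_iUnion]
      exact ⟨wl S g, Finset.mem_range.2 h1, wl_spec hS g⟩
    have : (Set.univ : Set A).Finite := by
      refine Set.Finite.subset ?_ hall
      refine Set.Finite.biUnion (Finset.finite_toSet _) (fun k hk => ?_)
      clear hall hk
      induction k with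
      | zero => rw [pow_zero]; exact Set.finite_one
      | succ k ih => rw [pow_succ]; exact ih.mul hfin'
    exact Set.infinite_univ this

/-- The word length as a length function. -/
noncomputable def wlen {S : Set A} (hS : Subgroup.closure S = ⊤) : Len A where
  l := wl S
  l_one := wl_one S
  l_mul := wl_mul hS
  l_inv := wl_inv hS

theorem fg_chain (A : Type*) [Group A] [Group.FG A] [Infinite A] :
    ∃ C : Set (Str (Wr A)), C ⊆ Hqp (Wr A) ∧ IsChain (· ≤ ·) C ∧ ¬ C.Countable := by
  obtain ⟨n, S, hn, hS⟩ := (Group.fg_iff' (G := A)).1 inferInstance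
  exact exists_uncountable_chain (wlen hS) (wl_surjective hS S.finite_toSet)

end Wr

end Pool.Agent.Q104.HS
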