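import Pool.Agent.Q104.HS.Bdry

set_option autoImplicit false

/-!
# Restricted wreath products with the integers
-/

open Pointwise

namespace Pool.Agent.Q104.HS

open Pool.Agent.Q104.QP

/-- The restricted wreath product of `A` with the group of integers: pairs of a function `f` from
the integers to `A` with finite support and an integer `s`. -/
@[ext] structure Wr (A : Type*) [Group A] where
  /-- the lamps -/
  f : ℤ → A
  /-- the position -/
  s : ℤ
  fin : {n | f n ≠ 1}.Finite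

namespace Wr

variable {A : Type*} [Group A]

/-- The product: the integer `s` shifts the coordinates by `s`. -/
instance : Mul (Wr A) where
  mul x y := ⟨fun n => x.f n * y.f (n - x.s), x.s + y.s, by
    have h : {n | y.f (n - x.s) ≠ 1}.Finite :=
      Set.Finite.preimage (fun a _ b _ (h : a - x.s = b - x.s) => by omega) y.fin
    refine (x.fin.union h).subset fun n hn => ?_
    by_contra hcon
    rw [Set.mem_union, not_or] at hcon
    simp only [Set.mem_ofPred_eq, not_not] at hcon hn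
    exact hn (by rw [hcon.1, hcon.2, one_mul])⟩

instance : One (Wr A) := ⟨⟨fun _ => 1, 0, by simp⟩⟩

instance : Inv (Wr A) where
  inv x := ⟨fun n => (x.f (n + x.s))⁻¹, -x.s, by
    have h : {n | x.f (n + x.s) ≠ 1}.Finite :=
      Set.Finite.preimage (fun a _ b _ (h : a + x.s = b + x.s) => by omega) x.fin
    exact h.subset fun n hn => by simpa using hn⟩

theorem mul_f (x y : Wr A) (n : ℤ) : (x * y).f n = x.f n * y.f (n - x.s) := rfl
theorem mul_s (x y : Wr A) : (x * y).s = x.s + y.s := rfl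
theorem one_f (n : ℤ) : (1 : Wr A).f n = 1 := rfl
theorem one_s : (1 : Wr A).s = 0 := rfl
theorem inv_f (x : Wr A) (n : ℤ) : (x⁻¹).f n = (x.f (n + x.s))⁻¹ := rfl
theorem inv_s (x : Wr A) : (x⁻¹).s = -x.s := rfl

instance : Group (Wr A) := Group.ofLeftAxioms
  (fun x y z => by
    ext n
    · simp only [mul_f, mul_s, mul_assoc]
      congr 3
      ring
    · simp only [mul_s]; ring)
  (fun x => by
    ext n
    · simp only [mul_f, one_f, one_s, one_mul, sub_zero]
    · simp only [mul_s, one_s, zero_add])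
  (fun x => by
    ext n
    · simp only [mul_f, inv_f, inv_s, one_f, sub_neg_eq_add, inv_mul_cancel]
    · simp only [mul_s, inv_s, one_s, neg_add_cancel])

/-- The generator of the group of integers. -/
def t : Wr A := ⟨fun _ => 1, 1, by simp⟩

open Classical in
/-- The element `a` in the coordinate `k`. -/
noncomputable def δ (k : ℤ) (a : A) : Wr A :=
  ⟨Pi.mulSingle k a, 0, (Set.finite_singleton k).subset fun n hn => by
    by_contra h
    exact hn (Pi.mulSingle_eq_of_ne h _)⟩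

/-- Length functions. -/
structure Len (A : Type*) [Group A] where
  /-- the length -/
  l : A → ℕ
  l_one : l 1 = 0
  l_mul : ∀ a b, l (a * b) ≤ l a + l b
  l_inv : ∀ a, l a⁻¹ = l a

variable (L : Len A)

theorem finsum_mono' {f g : ℤ → ℝ} (hf : (Function.support f).Finite)
    (hg : (Function.support g).Finite) (h : ∀ n, f n ≤ g n) : ∑ᶠ n, f n ≤ ∑ᶠ n, g n := by
  rw [finsum_eq_sum_of_support_subset f (s := (hf.union hg).toFinset) (by simp),
    finsum_eq_sum_of_support_subset g (s := (hf.union hg).toFinset) (by simp)]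
  exact Finset.sum_le_sum fun n _ => h n

/-- The weighted sum. -/
noncomputable def nu (q : ℝ) (f : ℤ → A) : ℝ := ∑ᶠ n : ℤ, q ^ n * (L.l (f n) : ℝ)

theorem nu_fin (q : ℝ) {f : ℤ → A} (hf : {n | f n ≠ 1}.Finite) :
    (Function.support fun n : ℤ => q ^ n * (L.l (f n) : ℝ)).Finite := by
  refine hf.subset fun n hn => ?_
  intro h
  apply hn
  show q ^ n * (L.l (f n) : ℝ) = 0
  rw [h, L.l_one]; simp

theorem nu_shift {q : ℝ} (hq : 0 < q) (f : ℤ → A) (k : ℤ) :
    nu L q (fun n => f (n - k)) = q ^ k * nu L q f := by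
  unfold nu
  rw [← smul_eq_mul, smul_finsum]
  rw [← finsum_comp_equiv (Equiv.addRight k)]
  apply finsum_congr
  intro n
  show q ^ (n + k) * (L.l (f (n + k - k)) : ℝ) = q ^ k • (q ^ n * (L.l (f n) : ℝ))
  rw [add_sub_cancel_right, zpow_add₀ hq.ne', smul_eq_mul]
  ring

/-- The horocyclic datum of the base `q`. -/
noncomputable def horo (q : ℝ) (hq : 1 < q) : Horo (Wr A) where
  lam := q
  one_lt := hq
  s := Wr.s
  s_mul _ _ := rfl
  ν x := nu L q x.f
  ν_nonneg x := finsum_nonneg fun n =>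
    mul_nonneg (zpow_pos (one_pos.trans hq) _).le (Nat.cast_nonneg _)
  ν_one := by
    unfold nu
    rw [finsum_eq_zero_of_forall_eq_zero]
    intro n
    rw [one_f, L.l_one]; simp
  ν_mul x y := by
    rw [← nu_shift L (one_pos.trans hq)]
    have hy : {n | y.f (n - x.s) ≠ 1}.Finite :=
      Set.Finite.preimage (fun a _ b _ (h : a - x.s = b - x.s) => by omega) y.fin
    unfold nu
    rw [← finsum_add_distrib (nu_fin L q x.fin) (nu_fin L q (f := fun n => y.f (n - x.s)) hy)]
    apply finsum_mono'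
    · exact nu_fin L q (x * y).fin
    · exact ((nu_fin L q x.fin).union (nu_fin L q (f := fun n => y.f (n - x.s)) hy)).subset
        (Function.support_add _ _)
    · intro n
      show q ^ n * (L.l (x.f n * y.f (n - x.s)) : ℝ) ≤
        q ^ n * (L.l (x.f n) : ℝ) + q ^ n * (L.l (y.f (n - x.s)) : ℝ)
      rw [← mul_add]
      apply mul_le_mul_of_nonneg_left _ (zpow_pos (one_pos.trans hq) _).le
      exact_mod_cast L.l_mul _ _
  ν_inv x := by
    rw [← nu_shift L (one_pos.trans hq)]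
    apply le_of_eq
    unfold nu
    apply finsum_congr
    intro n
    rw [inv_f, L.l_inv]
    show _ = q ^ n * (L.l (x.f (n - -x.s)) : ℝ)
    rw [sub_neg_eq_add]
  t := t
  s_t := rfl
  ν_t := by
    unfold nu
    rw [finsum_eq_zero_of_forall_eq_zero]
    intro n
    show q ^ n * (L.l 1 : ℝ) = 0
    rw [L.l_one]; simp

theorem nu_single {q : ℝ} (k : ℤ) (a : A) : nu L q (δ k a).f = q ^ k * L.l a := by
  classical
  unfold nu
  rw [finsum_eq_single _ k]
  · show q ^ k * (L.l (Pi.mulSingle (M := fun _ : ℤ => A) k a k) : ℝ) = _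
    rw [Pi.mulSingle_eq_same]
  · intro n hn
    show q ^ n * (L.l (Pi.mulSingle (M := fun _ : ℤ => A) k a n) : ℝ) = 0
    rw [Pi.mulSingle_eq_of_ne hn, L.l_one]; simp

theorem nu_ge {q : ℝ} (hq : 0 < q) {f : ℤ → A} (hf : {n | f n ≠ 1}.Finite) (k : ℤ) :
    q ^ k * L.l (f k) ≤ nu L q f := by
  unfold nu
  exact single_le_finsum k (nu_fin L q hf) (fun n =>
    mul_nonneg (zpow_pos hq _).le (Nat.cast_nonneg _))

theorem quasiParabolic {a : A} (ha : L.l a ≠ 0) (q : ℝ) (hq : 1 < q) :
    QuasiParabolic (horo L q hq).X := by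
  classical
  apply (horo L q hq).quasiParabolic (fun i : ℕ => δ (i : ℤ) a)
  intro i j hij
  have h1 := nu_ge L (one_pos.trans hq) ((δ (i : ℤ) a)⁻¹ * δ (j : ℤ) a).fin (i : ℤ)
  have h2 : ((δ (i : ℤ) a)⁻¹ * δ (j : ℤ) a).f i = a⁻¹ := by
    rw [mul_f, inv_f]
    show (Pi.mulSingle (M := fun _ : ℤ => A) (i : ℤ) a ((i : ℤ) + 0))⁻¹ *
      Pi.mulSingle (M := fun _ : ℤ => A) (j : ℤ) a ((i : ℤ) - -0) = a⁻¹
    rw [add_zero, Pi.mulSingle_eq_same, neg_zero, sub_zero, Pi.mulSingle_eq_of_ne, mul_one]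
    exact_mod_cast hij
  rw [h2, L.l_inv] at h1
  refine lt_of_lt_of_le ?_ h1
  have : (0 : ℝ) < L.l a := by exact_mod_cast Nat.pos_of_ne_zero ha
  exact mul_pos (zpow_pos (one_pos.trans hq) _) this

/-- Small elements are supported on the negative coordinates. -/
theorem X_subset {p q : ℝ} (hp : 1 < p) (hpq : p ≤ q) :
    (horo L p hp).X ⊆ (horo L q (hp.trans_le hpq)).X := by
  rintro x (⟨h1, h2⟩ | h)
  · left
    refine ⟨h1, le_trans ?_ h2⟩
    apply finsum_mono' (nu_fin L q x.fin) (nu_fin L p x.fin)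
    intro n
    show q ^ n * (L.l (x.f n) : ℝ) ≤ p ^ n * (L.l (x.f n) : ℝ)
    rcases le_or_gt n 0 with hn | hn
    · apply mul_le_mul_of_nonneg_right _ (Nat.cast_nonneg _)
      obtain ⟨m, rfl⟩ : ∃ m : ℕ, n = -m := ⟨n.natAbs, by omega⟩
      rw [zpow_neg, zpow_neg, zpow_natCast, zpow_natCast]
      apply inv_anti₀ (by positivity)
      exact pow_le_pow_left₀ (by linarith) hpq m
    · have h3 : (L.l (x.f n) : ℝ) = 0 := by
        by_contra h4
        have h5 : 1 ≤ L.l (x.f n) := Nat.one_le_iff_ne_zero.2 (by exact_mod_cast h4)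
        have h6 : (1 : ℝ) ≤ L.l (x.f n) := by exact_mod_cast h5
        have h7 := nu_ge L (one_pos.trans hp) x.fin n
        have h8 : nu L p x.f ≤ 1 := h2
        have h9 : 1 < p ^ n := one_lt_zpow₀ hp hn
        nlinarith
      rw [h3]; simp
  · exact Or.inr h

theorem strict (hL : Function.Surjective L.l) {p q : ℝ} (hp : 1 < p) (hpq : p < q) (C : ℕ) :
    ∃ x ∈ (horo L q (hp.trans hpq)).X, C < wl (horo L p hp).X x := by
  -- choose `k` with `(q / p) ^ k` large
  have hp0 : 0 < p := one_pos.trans hp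
  have hqp : 1 < q / p := by rwa [one_lt_div hp0]
  obtain ⟨k, hk⟩ := pow_unbounded_of_one_lt (p ^ ((C : ℝ) + (horo L p hp).c₂ + 1) + 1) hqp
  obtain ⟨a, ha⟩ := hL ⌊q ^ k⌋₊
  have hq0 : 0 < q := hp0.trans hpq
  refine ⟨δ (-k) a, Or.inl ⟨rfl, ?_⟩, ?_⟩
  · show nu L q (δ (-k) a).f ≤ 1
    rw [nu_single, ha, zpow_neg, zpow_natCast, inv_mul_le_iff₀ (by positivity), mul_one]
    exact Nat.floor_le (by positivity)
  · have h1 := (horo L p hp).le_wl (δ (-k) a)
    have h2 : (horo L p hp).ν (δ (-k) a) = p ^ (-(k : ℤ)) * ⌊q ^ k⌋₊ := by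
      show nu L p (δ (-k) a).f = _
      rw [nu_single, ha]
    have h3 : p ^ ((C : ℝ) + (horo L p hp).c₂ + 1) < (horo L p hp).ν (δ (-k) a) := by
      rw [h2, zpow_neg, zpow_natCast, lt_inv_mul_iff₀ (by positivity)]
      have h4 : q ^ k < ⌊q ^ k⌋₊ + 1 := Nat.lt_floor_add_one _
      rw [div_pow, lt_div_iff₀ (by positivity)] at hk
      have h5 : 1 ≤ p ^ k := one_le_pow₀ hp.le
      nlinarith
    have h4 : (C : ℝ) + (horo L p hp).c₂ + 1 ≤ (horo L p hp).M (δ (-k) a) := by
      have h5 := (horo L p hp).ν_le_M (δ (-k) a)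
      have h6 := h3.trans_le h5
      exact ((Real.rpow_lt_rpow_left_iff hp).1 h6).le
    have h5 : (horo L p hp).D (δ (-k) a) = 2 * (horo L p hp).M (δ (-k) a) - 0 := by
      unfold Horo.D
      congr 1
      show (((δ (-k) a).s : ℤ) : ℝ) = 0
      show ((0 : ℤ) : ℝ) = 0
      simp
    have h6 := (horo L p hp).M_nonneg (δ (-k) a)
    have h7 : (C : ℝ) < wl (horo L p hp).X (δ (-k) a) := by
      have := (horo L p hp).c₂_nonneg
      linarith
    exact_mod_cast h7

/-- The family of generating sets. -/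
noncomputable def gs (q : Set.Ioi (1 : ℝ)) : GenSet (Wr A) :=
  ⟨(horo L q.1 q.2).X, (horo L q.1 q.2).closure_X⟩

theorem gs_lt (hL : Function.Surjective L.l) {p q : Set.Ioi (1 : ℝ)} (hpq : p < q) :
    gs L q < gs L p := by
  have hpq' : p.1 < q.1 := hpq
  rw [lt_iff_le_not_ge]
  constructor
  · refine ⟨1, fun y hy => wl_mem ?_⟩
    exact X_subset L p.2 hpq'.le hy
  · rintro ⟨C, hC⟩
    obtain ⟨x, hx, hx'⟩ := strict L hL p.2 hpq' C
    exact absurd (hC x hx) (not_le.2 hx')

/-- The chain. -/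
theorem exists_chain (hL : Function.Surjective L.l) :
    ∃ F : Set.Ioi (1 : ℝ) → Str (Wr A), StrictAnti F ∧ ∀ q, F q ∈ Hqp (Wr A) := by
  refine ⟨fun q => toAntisymmetrization (· ≤ ·) (gs L q), fun p q hpq => ?_, fun q => ?_⟩
  · exact toAntisymmetrization_lt_toAntisymmetrization_iff.2 (gs_lt L hL hpq)
  · obtain ⟨a, ha⟩ := hL 1
    exact ⟨gs L q, rfl, (horo L q.1 q.2).hyperbolic,
      quasiParabolic L (a := a) (by rw [ha]; norm_num) q.1 q.2⟩

theorem exists_uncountable_chain (hL : Function.Surjective L.l) :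
    ∃ C : Set (Str (Wr A)), C ⊆ Hqp (Wr A) ∧ IsChain (· ≤ ·) C ∧ ¬ C.Countable := by
  obtain ⟨F, hF, hF'⟩ := exists_chain L hL
  refine ⟨Set.range F, ?_, ?_, ?_⟩
  · rintro _ ⟨q, rfl⟩; exact hF' q
  · rintro _ ⟨p, rfl⟩ _ ⟨q, rfl⟩ _
    rcases le_total p q with h | h
    · right; exact hF.antitone h
    · left; exact hF.antitone h
  · intro hc
    have h1 : (Set.univ : Set (Set.Ioi (1 : ℝ))).Countable := by
      have := hc.preimage_of_injOn (f := F) (hF.injective.injOn)
      simpa using this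
    rw [Set.countable_univ_iff] at h1
    have h2 : (Set.Ioi (1 : ℝ)).Countable := Set.countable_coe_iff.1 h1
    have h3 := Cardinal.mk_Ioi_real 1
    have h4 := h2.le_aleph0
    rw [h3] at h4
    exact absurd h4 (not_le.2 Cardinal.aleph0_lt_continuum)

end Wr

end Pool.Agent.Q104.HS
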